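import Mathlib
import Pool.Agent.H791Z.LogConv.Main

namespace Pool.Agent.Results.MP_4388f3_co.AllPlanes

open Filter Topology Pool.Agent.H791Z.LogConv

/-- Incidence graphs of arbitrary finite projective planes with orders tending to infinity are
log-convergent, and the limit does not depend on the sequence of planes. -/
theorem result {A₁ B₁ A₂ B₂ : Type} [Finite A₁] [Finite B₁] [Finite A₂] [Finite B₂]
    (H₁ : A₁ → B₁ → Prop) (H₂ : A₂ → B₂ → Prop) (h₁ : ∃ a b, H₁ a b) (h₂ : ∃ a b, H₂ a b) :
    ∃ r : ℝ, ∀ (P L : ℕ → Type) [∀ n, Membership (P n) (L n)] [∀ n, Finite (P n)]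
      [∀ n, Finite (L n)] [∀ n, Configuration.ProjectivePlane (P n) (L n)],
      Tendsto (fun n => Configuration.ProjectivePlane.order (P n) (L n)) atTop atTop →
      Tendsto (fun n => (-Real.log (tB H₁ (fun (p : P n) (l : L n) => p ∈ l))) /
        (-Real.log (tB H₂ (fun (p : P n) (l : L n) => p ∈ l)))) atTop (𝓝 r) :=
  main H₁ H₂ h₁ h₂

end Pool.Agent.Results.MP_4388f3_co.AllPlanes
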